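import Pool.Agent.Mg.F41f2d3.G7bde06

set_option autoImplicit false

namespace Pool.Agent.MP_a2955b_co.Old.UpperBound

open Pool.Agent.MP_a2955b_co Pool.Agent.MP_a2955b_co.Up

/-- For `d ≥ 4` there is `δ > 0` such that polyhedra with `n` faces, each the hull of at most
`v` points, have convex partitions of size `O(n ^ (d - 1 - δ))`. -/
theorem result (d : ℕ) (hd : 4 ≤ d) : ∃ δ : ℝ, 0 < δ ∧ ∀ v : ℕ, ∃ A : ℝ,
    ∀ (n : ℕ) (P : Set (EuclideanSpace ℝ (Fin d))), 1 ≤ n → IsPolyhedronV P n v →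
    ∃ (M : ℕ) (K : Fin M → Set (EuclideanSpace ℝ (Fin d))), IsConvexPartition P K ∧
      (M : ℝ) ≤ A * (n : ℝ) ^ ((d : ℝ) - 1 - δ) :=
  main_all d hd

end Pool.Agent.MP_a2955b_co.Old.UpperBound
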